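import Mathlib

/-!
Auxiliary material for MP_c7b0ca_al: a quadratic trick for commutators in a group with a
normal subgroup whose derived subgroup is central, and the reduction of power words of odd
exponent in finitely generated virtually soluble groups to it.
-/

open scoped Pointwise

namespace Pool.Agent.Lib.MP_c7b0ca_al

section Module

variable {G B : Type*} [Group G] [CommGroup B]

/-- The map `b ↦ ρ e b * b⁻¹` for an endomorphism. -/
def diffHom (f : B →* B) : B →* B where
  toFun b := f b * b⁻¹
  map_one' := by simp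
  map_mul' a b := by
    simp only [map_mul, mul_inv_rev]
    rw [mul_comm b⁻¹ a⁻¹]
    exact mul_mul_mul_comm _ _ _ _

@[simp] lemma diffHom_apply (f : B →* B) (b : B) : diffHom f b = f b * b⁻¹ := rfl

/-- If `C` contains `ρ e b * b⁻¹` for all generators `e`, it contains `ρ k b * b⁻¹` for all `k`
in the group generated. -/
lemma diff_mem_of_closure (ρ : G → (B →* B)) (h1 : ρ 1 = MonoidHom.id B)
    (hmul : ∀ k l, ρ (k * l) = (ρ k).comp (ρ l)) (E : Set G) (C : Subgroup B)
    (hE : ∀ e ∈ E, ∀ b, ρ e b * b⁻¹ ∈ C) :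
    ∀ k ∈ Subgroup.closure E, ∀ b, ρ k b * b⁻¹ ∈ C := by
  intro k hk
  induction hk using Subgroup.closure_induction with
  | mem x hx => exact hE x hx
  | one => intro b; simp [h1, C.one_mem]
  | mul x y _ _ hx hy =>
    intro b
    rw [hmul]
    have h := C.mul_mem (hx (ρ y b)) (hy b)
    have : ρ x (ρ y b) * (ρ y b)⁻¹ * (ρ y b * b⁻¹) = (ρ x).comp (ρ y) b * b⁻¹ := by
      simp [mul_assoc]
    rw [← this]
    exact h
  | inv x _ hx =>
    intro b
    have h := C.inv_mem (hx (ρ x⁻¹ b))
    have h2 : ρ x (ρ x⁻¹ b) = b := by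
      have := hmul x x⁻¹
      rw [mul_inv_cancel, h1] at this
      have h3 := congrArg (fun f : B →* B => f b) this
      simpa using h3.symm
    rw [h2] at h
    simpa using h

omit [Group G] in
/-- Elements of a finite supremum of ranges lift to products of boundedly many elements. -/
lemma lift_of_mem_sup {L : Type*} [Group L] (π : L →* B) (f : G → (B →* B)) (E : Finset G)
    (T : Set L) (hT : ∀ e ∈ E, ∀ b : B, ∃ t ∈ T, π t = f e b) :
    ∀ x ∈ E.sup (fun e => (f e).range), ∃ w ∈ T ^ E.card, π w = x := by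
  classical
  induction E using Finset.induction_on with
  | empty =>
    intro x hx
    simp only [Finset.sup_empty, Subgroup.mem_bot] at hx
    exact ⟨1, by simp, by simp [hx]⟩
  | insert a s ha ih =>
    intro x hx
    rw [Finset.sup_insert] at hx
    obtain ⟨y, hy, z, hz, rfl⟩ := Subgroup.mem_sup.1 hx
    obtain ⟨b, rfl⟩ := hy
    obtain ⟨t, ht, ht2⟩ := hT a (Finset.mem_insert_self a s) b
    obtain ⟨w, hw, hw2⟩ := ih (fun e he b => hT e (Finset.mem_insert_of_mem he) b) z hz
    refine ⟨t * w, ?_, by rw [map_mul, ht2, hw2]⟩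
    rw [Finset.card_insert_of_notMem ha, pow_succ']
    exact Set.mul_mem_mul ht hw

end Module

end Pool.Agent.Lib.MP_c7b0ca_al
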