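import Mathlib

/-!
Definitions for MP_c7b0ca_al: values of a group word, verbal subgroup, the class `K_v` and
exponent sums.
-/

namespace Pool.Agent.Lib.MP_c7b0ca_al

/-- The set of values `v(g_1, …, g_k)` of a group word `v` in `k` letters on a group `G`. -/
def wordValues {k : ℕ} (v : FreeGroup (Fin k)) (G : Type*) [Group G] : Set G :=
  {x | ∃ g : Fin k → G, FreeGroup.lift g v = x}

/-- The verbal subgroup `vG`: the subgroup of `G` generated by all values of `v` on `G`. -/
def verbalSubgroup {k : ℕ} (v : FreeGroup (Fin k)) (G : Type*) [Group G] : Subgroup G :=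
  Subgroup.closure (wordValues v G)

/-- `G` belongs to the class `K_v`: there is a positive integer `n` such that every element of
the verbal subgroup `vG` is a product of exactly `n` values of `v` on `G` (no inverses of values
are used; since `1 = v(1, …, 1)` is a value, `exactly n` and `at most n` are the same here). -/
def InClassK {k : ℕ} (v : FreeGroup (Fin k)) (G : Type*) [Group G] : Prop :=
  ∃ n : ℕ, 0 < n ∧ ∀ x ∈ verbalSubgroup v G,
    ∃ y : Fin n → G, (∀ i, y i ∈ wordValues v G) ∧ (List.ofFn y).prod = x

/-- The exponent sum of the letter `x_i` in the word `v`: the image of `v` under the homomorphism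
from the free group to the integers that sends `x_i` to `1` and all other letters to `0`. -/
def exponentSum {k : ℕ} (i : Fin k) (v : FreeGroup (Fin k)) : ℤ :=
  Multiplicative.toAdd
    (FreeGroup.lift (fun j => if j = i then Multiplicative.ofAdd (1 : ℤ) else 1) v)

end Pool.Agent.Lib.MP_c7b0ca_al
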