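import Pool.Agent.Lib.MP_c7b0ca_al.Power

open scoped Pointwise commutatorElement

namespace Pool.Agent.Lib.MP_c7b0ca_al

universe u

section DSer

variable {G : Type*} [Group G]

/-- The derived series of a subgroup. -/
def dser (H : Subgroup G) : ℕ → Subgroup G
  | 0 => H
  | (l + 1) => ⁅dser H l, dser H l⁆

lemma dser_zero (H : Subgroup G) : dser H 0 = H := rfl

lemma dser_succ (H : Subgroup G) (l : ℕ) : dser H (l + 1) = ⁅dser H l, dser H l⁆ := rfl

lemma dser_succ' (H : Subgroup G) (l : ℕ) : dser H (l + 1) = dser ⁅H, H⁆ l := by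
  induction l with
  | zero => rfl
  | succ l ih => rw [dser_succ, ih, dser_succ]

lemma dser_normal (H : Subgroup G) [hH : H.Normal] (l : ℕ) : (dser H l).Normal := by
  induction l with
  | zero => exact hH
  | succ l ih =>
    have := ih
    rw [dser_succ]; infer_instance

lemma dser_mono {H K : Subgroup G} (h : H ≤ K) (l : ℕ) : dser H l ≤ dser K l := by
  induction l with
  | zero => exact h
  | succ l ih => exact Subgroup.commutator_mono ih ih

lemma dser_le (H : Subgroup G) [H.Normal] (l : ℕ) : dser H l ≤ H := by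
  induction l with
  | zero => exact le_rfl
  | succ l ih =>
    have := dser_normal H l
    exact (Subgroup.commutator_le_left _ _).trans ih

lemma map_dser {G' : Type*} [Group G'] (f : G →* G') (H : Subgroup G) (l : ℕ) :
    (dser H l).map f = dser (H.map f) l := by
  induction l with
  | zero => rfl
  | succ l ih => rw [dser_succ, Subgroup.map_commutator, ih, dser_succ]

lemma dser_top (l : ℕ) : dser (⊤ : Subgroup G) l = derivedSeries G l := by
  induction l with
  | zero => rfl
  | succ l ih => rw [dser_succ, ih]; rfl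

end DSer

lemma map_finiteIndex {G G' : Type*} [Group G] [Group G'] (f : G →* G')
    (hf : Function.Surjective f) (H : Subgroup G) [H.FiniteIndex] : (H.map f).FiniteIndex := by
  constructor
  have h := Subgroup.index_map_dvd H hf
  intro h0
  rw [h0] at h
  exact (Subgroup.FiniteIndex.index_ne_zero (H := H)) (Nat.eq_zero_of_zero_dvd h)

theorem finite_of_torsion (l : ℕ) : ∀ (G : Type*) [Group G] [Group.FG G]
    (_ : ∀ g : G, ∃ n : ℕ, 0 < n ∧ g ^ n = 1) (H : Subgroup G) [H.Normal] [H.FiniteIndex]
    (_ : dser H l = ⊥), Finite G := by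
  induction l with
  | zero =>
    intro G _ _ _ H _ hfi hl
    rw [dser_zero] at hl
    subst hl
    have h : Finite (G ⧸ (⊥ : Subgroup G)) := Subgroup.finite_quotient_of_finiteIndex
    exact Finite.of_equiv _ (QuotientGroup.quotientBot (G := G)).toEquiv
  | succ l ih =>
    intro G _ hG ht H hn hfi hl
    rw [dser_succ'] at hl
    have : Group.FG H := Subgroup.fg_of_index_ne_zero H
    have : Group.FG (Abelianization H) :=
      Group.fg_of_surjective (f := (Abelianization.of : H →* Abelianization H))
        QuotientGroup.mk_surjective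
    have : Finite (Abelianization H) := by
      apply CommGroup.finite_of_fg_isMulTorsion
      intro x
      obtain ⟨x, rfl⟩ := QuotientGroup.mk_surjective x
      obtain ⟨n, hn, hx⟩ := ht x
      have h1 : x ^ n = 1 := Subtype.ext (by simpa using hx)
      have h2 : IsOfFinOrder x := isOfFinOrder_iff_pow_eq_one.2 ⟨n, hn, h1⟩
      exact (Abelianization.of : H →* Abelianization H).isOfFinOrder h2
    have : (commutator H).FiniteIndex := by
      have : Finite (H ⧸ commutator H) := ‹Finite (Abelianization H)›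
      exact Subgroup.finiteIndex_of_finite_quotient
    have : (⁅H, H⁆ : Subgroup G).FiniteIndex := by
      have : (commutator H).map H.subtype = ⁅H, H⁆ := by
        rw [commutator_def, Subgroup.map_commutator, ← MonoidHom.range_eq_map, H.range_subtype]
      rw [← this]
      constructor
      rw [Subgroup.index_map_subtype]
      exact mul_ne_zero (Subgroup.FiniteIndex.index_ne_zero) (Subgroup.FiniteIndex.index_ne_zero)
    exact ih G ht ⁅H, H⁆ hl


lemma closure_powSet_finiteIndex (n : ℕ) (hn : 0 < n) {l : ℕ} (G : Type*) [Group G] [Group.FG G]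
    (H : Subgroup G) [H.Normal] [H.FiniteIndex] (hl : dser H l = ⊥) :
    (Subgroup.closure (powSet G n)).FiniteIndex := by
  set W := Subgroup.closure (powSet G n) with hW
  have hs := QuotientGroup.mk'_surjective W
  have : Group.FG (G ⧸ W) := Group.fg_of_surjective hs
  have : (H.map (QuotientGroup.mk' W)).Normal := Subgroup.Normal.map inferInstance _ hs
  have : (H.map (QuotientGroup.mk' W)).FiniteIndex := map_finiteIndex _ hs H
  have : Finite (G ⧸ W) := by
    apply finite_of_torsion l (G ⧸ W) _ (H.map (QuotientGroup.mk' W))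
    · rw [← map_dser, hl, Subgroup.map_bot]
    · intro g
      obtain ⟨g, rfl⟩ := hs g
      refine ⟨n, hn, ?_⟩
      rw [← map_pow]
      exact (QuotientGroup.eq_one_iff _).2 (Subgroup.subset_closure ⟨g, rfl⟩)
  exact Subgroup.finiteIndex_of_finite_quotient

/-- Step 3: `A = dser H l` is abelian, of exponent dividing `n` and centralised by `G ^ n`. -/
lemma FW_step3 (n : ℕ) (hn : Odd n) (l : ℕ)
    (IH : ∀ (G : Type u) [Group G] [Group.FG G] (H : Subgroup G) [H.Normal] [H.FiniteIndex],
      dser H l = ⊥ → FW G n)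
    (G : Type u) [Group G] [Group.FG G] (H : Subgroup G) [H.Normal] [H.FiniteIndex]
    (hl : dser H (l + 1) = ⊥)
    (hc : ∀ w ∈ Subgroup.closure (powSet G n), ∀ a ∈ dser H l, w * a = a * w)
    (hexp : ∀ a ∈ dser H l, a ^ n = 1) : FW G n := by
  have hn0 : 0 < n := hn.pos
  rcases l with _ | l
  · have : Finite G := by
      apply finite_of_torsion 1 G _ H hl
      intro g
      have hi : H.index ≠ 0 := Subgroup.FiniteIndex.index_ne_zero
      refine ⟨H.index * n, Nat.mul_pos (Nat.pos_of_ne_zero hi) hn0, ?_⟩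
      rw [pow_mul]
      exact hexp _ (Subgroup.pow_index_mem H g)
    exact FW_of_finite n
  · have hWfi := closure_powSet_finiteIndex n hn0 G H hl
    set W := Subgroup.closure (powSet G n) with hW
    let K := H ⊓ W
    have hKW : K ≤ W := inf_le_right
    have hKH : K ≤ H := inf_le_left
    have hKn : K.Normal := inferInstance
    have hKfi : K.FiniteIndex := inferInstance
    let R := dser K l
    have hRn : R.Normal := dser_normal K l
    have hRK : R ≤ K := dser_le K l
    have hRR : ⁅R, R⁆ ≤ dser H (l + 1) := dser_mono hKH (l + 1)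
    have hKfg : K.FG := (Group.fg_iff_subgroup_fg K).1 (Subgroup.fg_of_index_ne_zero K)
    obtain ⟨E, hE⟩ := hKfg
    obtain ⟨m, hm⟩ := exists_pow_of_finset (n := n) E (fun e he => by
      have h1 : e ∈ Subgroup.closure (E : Set G) := Subgroup.subset_closure he
      rw [hE] at h1
      exact hKW h1)
    have key := sq_mem_pow R E (by rw [hE]; exact hRK)
      (fun a ha k hk => hc k (hKW (hRK hk)) a (hRR ha)) (powSet G n ^ (2 * m))
      (fun e he u _ => comm_mem_powSet (hm e he) u)
    obtain ⟨t, ht⟩ := hn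
    let k := 2 * m * E.card + 2 * m * E.card
    have hB : ∀ z ∈ ⁅R, R⁆, z ∈ powSet G n ^ k := by
      intro z hz
      obtain ⟨x, hx, y, hy, hxy⟩ := key (z ^ (t + 1)) (Subgroup.pow_mem _ hz _)
      rw [← pow_mul] at hx hy
      have h1 : z = x * y⁻¹ := by
        rw [← hxy, ← pow_mul]
        have h2 : (t + 1) * 2 = n + 1 := by rw [ht]; ring
        rw [h2, pow_succ, hexp z (hRR hz), one_mul]
      rw [h1]
      exact powSet_mul_mem hx (powSet_inv_mem hy)
    refine FW_of_quotient n ⁅R, R⁆ k hB ?_
    have hs := QuotientGroup.mk'_surjective (⁅R, R⁆ : Subgroup G)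
    have : Group.FG (G ⧸ ⁅R, R⁆) := Group.fg_of_surjective hs
    have : (K.map (QuotientGroup.mk' ⁅R, R⁆)).Normal := Subgroup.Normal.map inferInstance _ hs
    have : (K.map (QuotientGroup.mk' ⁅R, R⁆)).FiniteIndex := map_finiteIndex _ hs K
    apply IH (G ⧸ ⁅R, R⁆) (K.map (QuotientGroup.mk' ⁅R, R⁆))
    rw [← map_dser, Subgroup.map_eq_bot_iff, QuotientGroup.ker_mk']
    exact le_rfl

/-- The subgroup of `n`-th powers of elements of an abelian subgroup. -/
def abPow {G : Type*} [Group G] (A : Subgroup G) (hA : ⁅A, A⁆ = ⊥) (n : ℕ) : Subgroup G where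
  carrier := {x | ∃ a ∈ A, a ^ n = x}
  one_mem' := ⟨1, A.one_mem, by simp⟩
  mul_mem' := by
    rintro _ _ ⟨a, ha, rfl⟩ ⟨b, hb, rfl⟩
    refine ⟨a * b, A.mul_mem ha hb, ?_⟩
    have h : ⁅a, b⁆ ∈ (⊥ : Subgroup G) := by
      rw [← hA]; exact Subgroup.commutator_mem_commutator ha hb
    rw [Subgroup.mem_bot, commutatorElement_eq_one_iff_mul_comm] at h
    exact (show Commute a b from h).mul_pow n
  inv_mem' := by
    rintro _ ⟨a, ha, rfl⟩
    exact ⟨a⁻¹, A.inv_mem ha, by simp⟩

lemma abPow_normal {G : Type*} [Group G] (A : Subgroup G) [A.Normal] (hA : ⁅A, A⁆ = ⊥) (n : ℕ) :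
    (abPow A hA n).Normal := by
  constructor
  rintro _ ⟨a, ha, rfl⟩ g
  exact ⟨g * a * g⁻¹, (inferInstance : A.Normal).conj_mem a ha g, by simp⟩

/-- Step 2: `A = dser H l` is abelian and centralised by `G ^ n`. -/
lemma FW_step2 (n : ℕ) (hn : Odd n) (l : ℕ)
    (IH : ∀ (G : Type u) [Group G] [Group.FG G] (H : Subgroup G) [H.Normal] [H.FiniteIndex],
      dser H l = ⊥ → FW G n)
    (G : Type u) [Group G] [Group.FG G] (H : Subgroup G) [H.Normal] [H.FiniteIndex]
    (hl : dser H (l + 1) = ⊥)
    (hc : ⁅Subgroup.closure (powSet G n), dser H l⁆ = ⊥) : FW G n := by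
  have hAn : (dser H l).Normal := dser_normal H l
  have hBn := abPow_normal (dser H l) hl n
  set B := abPow (dser H l) hl n with hB
  refine FW_of_quotient n B 1 ?_ ?_
  · rintro _ ⟨a, ha, rfl⟩
    rw [pow_one]; exact ⟨a, rfl⟩
  have hs := QuotientGroup.mk'_surjective B
  have : Group.FG (G ⧸ B) := Group.fg_of_surjective hs
  have : (H.map (QuotientGroup.mk' B)).Normal := Subgroup.Normal.map inferInstance _ hs
  have : (H.map (QuotientGroup.mk' B)).FiniteIndex := map_finiteIndex _ hs H
  apply FW_step3 n hn l IH (G ⧸ B) (H.map (QuotientGroup.mk' B))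
  · rw [← map_dser, hl, Subgroup.map_bot]
  · rw [← map_closure_powSet (QuotientGroup.mk' B) hs, ← map_dser]
    rintro _ ⟨w, hw, rfl⟩ _ ⟨a, ha, rfl⟩
    rw [← map_mul, ← map_mul]
    congr 1
    have h : ⁅w, a⁆ ∈ (⊥ : Subgroup G) := by
      rw [← hc]; exact Subgroup.commutator_mem_commutator hw ha
    rwa [Subgroup.mem_bot, commutatorElement_eq_one_iff_mul_comm] at h
  · rw [← map_dser]
    rintro _ ⟨a, ha, rfl⟩
    rw [← map_pow]
    exact (QuotientGroup.eq_one_iff _).2 ⟨a, ha, rfl⟩

/-- Power words of odd exponent have finite width in finitely generated virtually soluble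
groups. -/
theorem FW_main (n : ℕ) (hn : Odd n) (l : ℕ) :
    ∀ (G : Type u) [Group G] [Group.FG G] (H : Subgroup G) [H.Normal] [H.FiniteIndex],
      dser H l = ⊥ → FW G n := by
  induction l with
  | zero =>
    intro G _ _ H _ _ hl
    rw [dser_zero] at hl
    subst hl
    have h : Finite (G ⧸ (⊥ : Subgroup G)) := Subgroup.finite_quotient_of_finiteIndex
    have : Finite G := Finite.of_equiv _ (QuotientGroup.quotientBot (G := G)).toEquiv
    exact FW_of_finite n
  | succ l IH =>
    intro G _ _ H _ _ hl
    have hn0 : 0 < n := hn.pos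
    have hWfi := closure_powSet_finiteIndex n hn0 G H hl
    set W := Subgroup.closure (powSet G n) with hW
    have hAn : (dser H l).Normal := dser_normal H l
    have hWfg : W.FG := (Group.fg_iff_subgroup_fg W).1 (Subgroup.fg_of_index_ne_zero W)
    obtain ⟨E, hE⟩ := hWfg
    obtain ⟨m, hm⟩ := exists_pow_of_finset (n := n) E (fun e he => by
      have h1 : e ∈ Subgroup.closure (E : Set G) := Subgroup.subset_closure he
      rwa [hE] at h1)
    have key := comm_mem_pow (dser H l) hl E (powSet G n ^ (2 * m))
      (fun e he u _ => comm_mem_powSet (hm e he) u)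
    rw [hE] at key
    refine FW_of_quotient n ⁅W, dser H l⁆ (2 * m * E.card) ?_ ?_
    · intro b hb
      have := key b hb
      rwa [← pow_mul] at this
    set B := ⁅W, dser H l⁆ with hB
    have hs := QuotientGroup.mk'_surjective B
    have : Group.FG (G ⧸ B) := Group.fg_of_surjective hs
    have : (H.map (QuotientGroup.mk' B)).Normal := Subgroup.Normal.map inferInstance _ hs
    have : (H.map (QuotientGroup.mk' B)).FiniteIndex := map_finiteIndex _ hs H
    apply FW_step2 n hn l IH (G ⧸ B) (H.map (QuotientGroup.mk' B))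
    · rw [← map_dser, hl, Subgroup.map_bot]
    · rw [← map_closure_powSet (QuotientGroup.mk' B) hs, ← map_dser, ← Subgroup.map_commutator,
        Subgroup.map_eq_bot_iff, QuotientGroup.ker_mk']

end Pool.Agent.Lib.MP_c7b0ca_al
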