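import Pool.Agent.Lib.MP_c7b0ca_al.Quadratic

open scoped Pointwise commutatorElement

namespace Pool.Agent.Lib.MP_c7b0ca_al

section Linear

variable {G : Type*} [Group G]

/-- If `A` is an abelian normal subgroup and `E` is finite, then elements of `⁅⟨E⟩, A⁆` are
products of `|E|` commutators `⁅e, a⁆`. -/
theorem comm_mem_pow (A : Subgroup G) [A.Normal] (hA : ⁅A, A⁆ = ⊥) (E : Finset G)
    (T : Set G) (hT : ∀ e ∈ E, ∀ u ∈ A, ⁅e, u⁆ ∈ T) :
    ∀ x ∈ ⁅Subgroup.closure (E : Set G), A⁆, x ∈ T ^ E.card := by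
  classical
  let ρ : G → (Abelianization A →* Abelianization A) :=
    fun k => Abelianization.map (MulAut.conjNormal k : MulAut A).toMonoidHom
  let C : Subgroup (Abelianization A) := E.sup (fun e => (diffHom (ρ e)).range)
  have hρ1 : ρ 1 = MonoidHom.id _ := by
    simp only [ρ, map_one]
    exact Abelianization.map_id
  have hρm : ∀ k l, ρ (k * l) = (ρ k).comp (ρ l) := by
    intro k l
    simp only [ρ, map_mul]
    exact (Abelianization.map_comp (MulAut.conjNormal l : MulAut A).toMonoidHom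
      (MulAut.conjNormal k : MulAut A).toMonoidHom).symm
  have hC : ∀ k ∈ Subgroup.closure (E : Set G), ∀ b, ρ k b * b⁻¹ ∈ C := by
    apply diff_mem_of_closure ρ hρ1 hρm
    intro e he b
    have h1 : (diffHom (ρ e)).range ≤ C := Finset.le_sup (f := fun e => (diffHom (ρ e)).range) he
    exact h1 ⟨b, rfl⟩
  have hcom : commutator A = ⊥ := by
    rw [commutator_def, ← Subgroup.map_eq_bot_iff_of_injective _ A.subtype_injective,
      Subgroup.map_commutator, ← MonoidHom.range_eq_map, A.range_subtype, hA]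
  intro x hx
  have hz : ∃ h : x ∈ A, (Abelianization.of (⟨x, h⟩ : A)) ∈ C := by
    rw [Subgroup.commutator_def] at hx
    induction hx using Subgroup.closure_induction with
    | mem x hx =>
      obtain ⟨r, hr, s, hs, rfl⟩ := hx
      have hmem : ⁅r, s⁆ ∈ A := by
        rw [commutatorElement_def]
        exact A.mul_mem ((inferInstance : A.Normal).conj_mem s hs r) (A.inv_mem hs)
      refine ⟨hmem, ?_⟩
      have key := hC r hr (Abelianization.of ⟨s, hs⟩)
      have e1 : ρ r (Abelianization.of ⟨s, hs⟩) * (Abelianization.of ⟨s, hs⟩)⁻¹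
          = Abelianization.of ((MulAut.conjNormal r : MulAut A) ⟨s, hs⟩ * (⟨s, hs⟩ : A)⁻¹) := by
        simp only [ρ, map_mul, map_inv]
        rfl
      rw [e1] at key
      exact key
    | one => exact ⟨A.one_mem, C.one_mem⟩
    | mul x y hx hy hx2 hy2 =>
      obtain ⟨h1, h2⟩ := hx2
      obtain ⟨h3, h4⟩ := hy2
      exact ⟨A.mul_mem h1 h3, C.mul_mem h2 h4⟩
    | inv x hx hx2 =>
      obtain ⟨h1, h2⟩ := hx2
      exact ⟨A.inv_mem h1, C.inv_mem h2⟩
  obtain ⟨hxA, hxC⟩ := hz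
  let T' : Set A := {w | (w : G) ∈ T}
  obtain ⟨w, hw, hw2⟩ := lift_of_mem_sup (Abelianization.of : A →* Abelianization A)
    (fun e => diffHom (ρ e)) E T' (by
      intro e he b
      obtain ⟨p, rfl⟩ := QuotientGroup.mk_surjective b
      refine ⟨(MulAut.conjNormal e : MulAut A) p * p⁻¹, ?_, ?_⟩
      · exact hT e he p p.2
      · simp only [map_mul, map_inv, ρ]
        rfl) _ hxC
  rw [Abelianization_of_eq_iff, hcom, Subgroup.mem_bot, inv_mul_eq_one] at hw2
  have h1 : A.subtype '' (T' ^ E.card) ⊆ T ^ E.card := by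
    rw [Set.image_pow]
    apply Set.pow_subset_pow_left
    rintro _ ⟨x, hx, rfl⟩
    exact hx
  have h2 := h1 ⟨w, hw, rfl⟩
  rw [hw2] at h2
  exact h2

end Linear

section Power

variable {G : Type*} [Group G]

/-- The set of `n`-th powers. -/
def powSet (G : Type*) [Group G] (n : ℕ) : Set G := Set.range (fun g : G => g ^ n)

lemma one_mem_powSet (n : ℕ) : (1 : G) ∈ powSet G n := ⟨1, by simp⟩

lemma inv_mem_powSet {n : ℕ} {x : G} (hx : x ∈ powSet G n) : x⁻¹ ∈ powSet G n := by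
  obtain ⟨g, rfl⟩ := hx
  exact ⟨g⁻¹, by simp⟩

lemma conj_mem_powSet {n : ℕ} {x : G} (hx : x ∈ powSet G n) (k : G) :
    k * x * k⁻¹ ∈ powSet G n := by
  obtain ⟨g, rfl⟩ := hx
  exact ⟨k * g * k⁻¹, by simp⟩

/-- `S ^ k` is monotone in `k` for `S = powSet G n`. -/
lemma powSet_pow_mono {n a b : ℕ} (h : a ≤ b) : powSet G n ^ a ⊆ powSet G n ^ b :=
  Set.pow_subset_pow_right (one_mem_powSet n) h

lemma powSet_mul_mem {n a b : ℕ} {x y : G} (hx : x ∈ powSet G n ^ a) (hy : y ∈ powSet G n ^ b) :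
    x * y ∈ powSet G n ^ (a + b) := by
  rw [pow_add]; exact Set.mul_mem_mul hx hy

lemma powSet_inv_mem {n a : ℕ} {x : G} (hx : x ∈ powSet G n ^ a) : x⁻¹ ∈ powSet G n ^ a := by
  have h : (powSet G n)⁻¹ = powSet G n := by
    ext y
    rw [Set.mem_inv]
    exact ⟨fun h => by simpa using inv_mem_powSet h, fun h => inv_mem_powSet h⟩
  have h2 : (powSet G n ^ a)⁻¹ = powSet G n ^ a := by rw [← inv_pow, h]
  rw [← h2]
  simpa using hx

lemma powSet_conj_mem {n a : ℕ} {x : G} (hx : x ∈ powSet G n ^ a) (k : G) :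
    k * x * k⁻¹ ∈ powSet G n ^ a := by
  have h : (MulAut.conj k).toMonoidHom '' (powSet G n ^ a) ⊆ powSet G n ^ a := by
    rw [Set.image_pow]
    apply Set.pow_subset_pow_left
    rintro _ ⟨y, hy, rfl⟩
    exact conj_mem_powSet hy k
  exact h ⟨x, hx, rfl⟩

lemma comm_mem_powSet {n a : ℕ} {x : G} (hx : x ∈ powSet G n ^ a) (u : G) :
    ⁅x, u⁆ ∈ powSet G n ^ (2 * a) := by
  have h := powSet_mul_mem hx (powSet_conj_mem (powSet_inv_mem hx) u)
  have e : x * (u * x⁻¹ * u⁻¹) = ⁅x, u⁆ := by rw [commutatorElement_def]; group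
  rw [e] at h
  rw [two_mul]; exact h

lemma exists_pow_of_mem_closure {n : ℕ} {x : G} (hx : x ∈ Subgroup.closure (powSet G n)) :
    ∃ k, x ∈ powSet G n ^ k := by
  induction hx using Subgroup.closure_induction with
  | mem x hx => exact ⟨1, by simpa using hx⟩
  | one => exact ⟨0, by simp⟩
  | mul x y _ _ hx hy =>
    obtain ⟨a, ha⟩ := hx
    obtain ⟨b, hb⟩ := hy
    exact ⟨a + b, powSet_mul_mem ha hb⟩
  | inv x _ hx =>
    obtain ⟨a, ha⟩ := hx
    exact ⟨a, powSet_inv_mem ha⟩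

lemma exists_pow_of_finset {n : ℕ} (E : Finset G)
    (hE : ∀ e ∈ E, e ∈ Subgroup.closure (powSet G n)) :
    ∃ m, ∀ e ∈ E, e ∈ powSet G n ^ m := by
  classical
  choose! f hf using fun e (he : e ∈ E) => exists_pow_of_mem_closure (hE e he)
  exact ⟨E.sup f, fun e he => powSet_pow_mono (Finset.le_sup he) (hf e he)⟩

/-- `x ↦ x ^ n` has finite width on `G`. -/
def FW (G : Type*) [Group G] (n : ℕ) : Prop :=
  ∃ N : ℕ, ∀ w ∈ Subgroup.closure (powSet G n), w ∈ powSet G n ^ N

lemma FW_of_finite [Finite G] (n : ℕ) : FW G n := by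
  classical
  cases nonempty_fintype G
  obtain ⟨m, hm⟩ := exists_pow_of_finset (n := n)
    (Finset.univ.filter (fun g : G => g ∈ Subgroup.closure (powSet G n)))
    (fun e he => (Finset.mem_filter.1 he).2)
  exact ⟨m, fun w hw => hm w (Finset.mem_filter.2 ⟨Finset.mem_univ _, hw⟩)⟩

lemma image_powSet {G' : Type*} [Group G'] (f : G →* G') (hf : Function.Surjective f) (n : ℕ) :
    f '' powSet G n = powSet G' n := by
  ext y
  constructor
  · rintro ⟨_, ⟨g, rfl⟩, rfl⟩
    exact ⟨f g, by simp⟩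
  · rintro ⟨g', rfl⟩
    obtain ⟨g, rfl⟩ := hf g'
    exact ⟨g ^ n, ⟨g, rfl⟩, by simp⟩

lemma map_closure_powSet {G' : Type*} [Group G'] (f : G →* G') (hf : Function.Surjective f)
    (n : ℕ) : (Subgroup.closure (powSet G n)).map f = Subgroup.closure (powSet G' n) := by
  rw [MonoidHom.map_closure, image_powSet f hf]

lemma FW_of_quotient (n : ℕ) (B : Subgroup G) [B.Normal] (k : ℕ)
    (hB : ∀ b ∈ B, b ∈ powSet G n ^ k) (hq : FW (G ⧸ B) n) : FW G n := by
  obtain ⟨N, hN⟩ := hq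
  refine ⟨N + k, fun w hw => ?_⟩
  have hs := QuotientGroup.mk'_surjective B
  have h1 : (QuotientGroup.mk' B) w ∈ Subgroup.closure (powSet (G ⧸ B) n) := by
    rw [← map_closure_powSet (QuotientGroup.mk' B) hs]
    exact Subgroup.mem_map_of_mem _ hw
  have h2 := hN _ h1
  rw [← image_powSet (QuotientGroup.mk' B) hs, ← Set.image_pow] at h2
  obtain ⟨x, hx, hxw⟩ := h2
  have h3 : x⁻¹ * w ∈ B := QuotientGroup.eq.1 hxw
  have h4 := powSet_mul_mem hx (hB _ h3)
  simpa using h4

instance closure_powSet_normal (n : ℕ) : (Subgroup.closure (powSet G n)).Normal := by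
  constructor
  intro x hx k
  induction hx using Subgroup.closure_induction with
  | mem x hx => exact Subgroup.subset_closure (conj_mem_powSet hx k)
  | one => simp
  | mul x y _ _ hx hy =>
    have := Subgroup.mul_mem _ hx hy
    have e : k * x * k⁻¹ * (k * y * k⁻¹) = k * (x * y) * k⁻¹ := by group
    rwa [e] at this
  | inv x _ hx =>
    have := Subgroup.inv_mem _ hx
    have e : (k * x * k⁻¹)⁻¹ = k * x⁻¹ * k⁻¹ := by group
    rwa [e] at this

end Power

end Pool.Agent.Lib.MP_c7b0ca_al
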