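import Pool.Agent.Lib.MP_c7b0ca_al.Basic

open scoped Pointwise commutatorElement

namespace Pool.Agent.Lib.MP_c7b0ca_al

section Quadratic

variable {G : Type*} [Group G]

/-- Pairs `(u, v)` of elements of `R` with `u * v ∈ ⁅R, R⁆`. -/
def pairGroup (R : Subgroup G) [R.Normal] : Subgroup (G × G) where
  carrier := {p | p.1 ∈ R ∧ p.2 ∈ R ∧ p.1 * p.2 ∈ ⁅R, R⁆}
  one_mem' := by
    refine ⟨R.one_mem, R.one_mem, ?_⟩
    simp
  mul_mem' := by
    rintro ⟨u, v⟩ ⟨u', v'⟩ ⟨hu, hv, huv⟩ ⟨hu', hv', huv'⟩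
    refine ⟨R.mul_mem hu hu', R.mul_mem hv hv', ?_⟩
    simp only at hu hv huv hu' hv' huv'
    have h1 : ⁅u', v⁆ ∈ ⁅R, R⁆ := Subgroup.commutator_mem_commutator hu' hv
    have h2 : u * ⁅u', v⁆ * u⁻¹ ∈ ⁅R, R⁆ := (inferInstance : (⁅R, R⁆ : Subgroup G).Normal).conj_mem _ h1 u
    have h3 := (⁅R, R⁆ : Subgroup G).mul_mem ((⁅R, R⁆ : Subgroup G).mul_mem h2 huv) huv'
    have e : u * ⁅u', v⁆ * u⁻¹ * (u * v) * (u' * v') = (u * u') * (v * v') := by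
      rw [commutatorElement_def]; group
    rw [e] at h3
    exact h3
  inv_mem' := by
    rintro ⟨u, v⟩ ⟨hu, hv, huv⟩
    refine ⟨R.inv_mem hu, R.inv_mem hv, ?_⟩
    simp only at hu hv huv
    have h2 : v * (u * v) * v⁻¹ ∈ ⁅R, R⁆ := (inferInstance : (⁅R, R⁆ : Subgroup G).Normal).conj_mem _ huv v
    have h3 := (⁅R, R⁆ : Subgroup G).inv_mem h2
    have e : (v * (u * v) * v⁻¹)⁻¹ = u⁻¹ * v⁻¹ := by group
    rw [e] at h3
    exact h3

/-- The diagonal copy of `⁅R, R⁆`. -/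
def diagGroup (R : Subgroup G) : Subgroup (G × G) where
  carrier := {p | p.1 ∈ ⁅R, R⁆ ∧ p.1 = p.2}
  one_mem' := ⟨Subgroup.one_mem _, rfl⟩
  mul_mem' := by
    rintro ⟨u, v⟩ ⟨u', v'⟩ ⟨hu, huv⟩ ⟨hu', huv'⟩
    simp only at hu huv hu' huv'
    refine ⟨Subgroup.mul_mem _ hu hu', ?_⟩
    simp [huv, huv']
  inv_mem' := by
    rintro ⟨u, v⟩ ⟨hu, huv⟩
    simp only at hu huv
    exact ⟨Subgroup.inv_mem _ hu, by simp [huv]⟩

/-- Conjugation by `k` on pairs. -/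
def conjPair (R : Subgroup G) [R.Normal] (k : G) : pairGroup R →* pairGroup R where
  toFun p := ⟨(k * p.1.1 * k⁻¹, k * p.1.2 * k⁻¹), by
    obtain ⟨⟨u, v⟩, hu, hv, huv⟩ := p
    simp only at hu hv huv
    refine ⟨(inferInstance : R.Normal).conj_mem _ hu k, (inferInstance : R.Normal).conj_mem _ hv k, ?_⟩
    have h := (inferInstance : (⁅R, R⁆ : Subgroup G).Normal).conj_mem _ huv k
    have e : k * (u * v) * k⁻¹ = (k * u * k⁻¹) * (k * v * k⁻¹) := by group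
    rw [e] at h
    exact h⟩
  map_one' := by ext <;> simp
  map_mul' p q := by ext <;> simp

lemma conjPair_one (R : Subgroup G) [R.Normal] : conjPair R 1 = MonoidHom.id _ := by
  ext p <;> simp [conjPair]

lemma conjPair_mul (R : Subgroup G) [R.Normal] (k l : G) :
    conjPair R (k * l) = (conjPair R k).comp (conjPair R l) := by
  ext p <;> simp [conjPair, mul_assoc]

lemma commutator_pair_le (R : Subgroup G) [R.Normal]
    (hc : ∀ a ∈ ⁅R, R⁆, ∀ r ∈ R, r * a = a * r) :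
    ∀ p ∈ commutator (pairGroup R), (p : G × G) ∈ diagGroup R := by
  intro p hp
  have hle : commutator (pairGroup R) ≤ (diagGroup R).comap (pairGroup R).subtype := by
    rw [commutator_def, Subgroup.commutator_le]
    rintro ⟨⟨u, v⟩, hu, hv, huv⟩ - ⟨⟨u', v'⟩, hu', hv', huv'⟩ -
    simp only at hu hv huv hu' hv' huv'
    rw [Subgroup.mem_comap]
    have hmem : ⁅u, u'⁆ ∈ ⁅R, R⁆ := Subgroup.commutator_mem_commutator hu hu'
    refine ⟨hmem, ?_⟩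
    show ⁅u, u'⁆ = ⁅v, v'⁆
    obtain ⟨a, ha⟩ : ∃ a, a = u * v := ⟨_, rfl⟩
    obtain ⟨a', ha'⟩ : ∃ a', a' = u' * v' := ⟨_, rfl⟩
    have hv1 : v = u⁻¹ * a := by rw [ha]; group
    have hv2 : v' = u'⁻¹ * a' := by rw [ha']; group
    rw [← ha] at huv
    rw [← ha'] at huv'
    have ca : ∀ r ∈ R, r * a = a * r := fun r hr => hc a huv r hr
    have ca' : ∀ r ∈ R, r * a' = a' * r := fun r hr => hc a' huv' r hr
    have c0 : ∀ r ∈ R, r * ⁅u, u'⁆ = ⁅u, u'⁆ * r := fun r hr => hc _ hmem r hr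
    -- `⁅u⁻¹ a, u'⁻¹ a'⁆ = ⁅u⁻¹, u'⁻¹⁆ = ⁅u, u'⁆`
    have haR : a ∈ R := by rw [ha]; exact R.mul_mem hu hv
    have haR' : a' ∈ R := by rw [ha']; exact R.mul_mem hu' hv'
    have s1 : ⁅v, v'⁆ = ⁅u⁻¹, u'⁻¹⁆ := by
      rw [hv1, hv2, commutatorElement_def, commutatorElement_def]
      have k1 := ca' (u⁻¹ * a) (R.mul_mem (R.inv_mem hu) haR)
      have k2 := ca u'⁻¹ (R.inv_mem hu')
      calc u⁻¹ * a * (u'⁻¹ * a') * (u⁻¹ * a)⁻¹ * (u'⁻¹ * a')⁻¹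
          = u⁻¹ * (a * u'⁻¹) * (a' * (u⁻¹ * a)⁻¹) * (u'⁻¹ * a')⁻¹ := by group
        _ = u⁻¹ * (u'⁻¹ * a) * ((u⁻¹ * a)⁻¹ * a') * (u'⁻¹ * a')⁻¹ := by
            rw [k2]
            congr 2
            rw [eq_inv_mul_iff_mul_eq, ← mul_assoc, k1]; group
        _ = u⁻¹ * u'⁻¹ * u⁻¹⁻¹ * u'⁻¹⁻¹ := by group
    rw [s1]
    have k3 := c0 (u * u')⁻¹ (R.inv_mem (R.mul_mem hu hu'))
    have k4 : u * u' = ⁅u, u'⁆ * (u' * u) := by rw [commutatorElement_def]; group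
    have k5 : ⁅u⁻¹, u'⁻¹⁆ = (u' * u)⁻¹ * (u * u') := by rw [commutatorElement_def]; group
    have k6 := c0 (u' * u)⁻¹ (R.inv_mem (R.mul_mem hu' hu))
    rw [k5, k4, ← mul_assoc, k6]
    group
  exact hle hp

lemma Abelianization_of_eq_iff {H : Type*} [Group H] (x y : H) :
    Abelianization.of x = Abelianization.of y ↔ x⁻¹ * y ∈ commutator H := by
  exact QuotientGroup.eq

/-- **Key lemma.** If `⁅R, R⁆` is centralised by the group generated by the finite set `E`, which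
contains the normal subgroup `R`, then squares of elements of `⁅R, R⁆` are products of boundedly
many commutators `⁅e, u⁆` with `e ∈ E`, `u ∈ R`, and inverses of such. -/
theorem sq_mem_pow (R : Subgroup G) [R.Normal] (E : Finset G)
    (hRE : R ≤ Subgroup.closure (E : Set G))
    (hc : ∀ a ∈ ⁅R, R⁆, ∀ k ∈ R, k * a = a * k)
    (T : Set G) (hT : ∀ e ∈ E, ∀ u ∈ R, ⁅e, u⁆ ∈ T) :
    ∀ z ∈ ⁅R, R⁆, ∃ x ∈ T ^ E.card, ∃ y ∈ T ^ E.card, z ^ 2 = x * y⁻¹ := by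
  classical
  set P := pairGroup R with hP
  let ρ : G → (Abelianization P →* Abelianization P) := fun k => Abelianization.map (conjPair R k)
  let C : Subgroup (Abelianization P) := E.sup (fun e => (diffHom (ρ e)).range)
  have hρ1 : ρ 1 = MonoidHom.id _ := by
    simp only [ρ, conjPair_one]
    exact Abelianization.map_id
  have hρm : ∀ k l, ρ (k * l) = (ρ k).comp (ρ l) := by
    intro k l
    simp only [ρ, conjPair_mul]
    exact (Abelianization.map_comp _ _).symm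
  have hC : ∀ k ∈ Subgroup.closure (E : Set G), ∀ b, ρ k b * b⁻¹ ∈ C := by
    apply diff_mem_of_closure ρ hρ1 hρm
    intro e he b
    have h1 : (diffHom (ρ e)).range ≤ C := Finset.le_sup (f := fun e => (diffHom (ρ e)).range) he
    exact h1 ⟨b, rfl⟩
  -- the elements `(z, z⁻¹)`
  have hz : ∀ z ∈ ⁅R, R⁆, ∃ h : (z, z⁻¹) ∈ P, (Abelianization.of (⟨(z, z⁻¹), h⟩ : P)) ∈ C := by
    intro z hz
    have hle : (⁅R, R⁆ : Subgroup G) ≤ R := Subgroup.commutator_le_left R R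
    rw [Subgroup.commutator_def] at hz
    induction hz using Subgroup.closure_induction with
    | mem x hx =>
      obtain ⟨r, hr, s, hs, rfl⟩ := hx
      have hmem : ⁅r, s⁆ ∈ ⁅R, R⁆ := Subgroup.commutator_mem_commutator hr hs
      have hone : ∀ x : G, x * x⁻¹ ∈ ⁅R, R⁆ := fun x => by
        rw [mul_inv_cancel]; exact Subgroup.one_mem _
      refine ⟨⟨hle hmem, R.inv_mem (hle hmem), hone _⟩, ?_⟩
      have hp : ((s, s⁻¹) : G × G) ∈ P := ⟨hs, R.inv_mem hs, hone _⟩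
      have key := hC r (hRE hr) (Abelianization.of ⟨(s, s⁻¹), hp⟩)
      have e1 : ρ r (Abelianization.of ⟨(s, s⁻¹), hp⟩) * (Abelianization.of ⟨(s, s⁻¹), hp⟩)⁻¹
          = Abelianization.of (conjPair R r ⟨(s, s⁻¹), hp⟩ * (⟨(s, s⁻¹), hp⟩ : P)⁻¹) := by
        simp only [ρ, map_mul, map_inv]
        rfl
      rw [e1] at key
      convert key using 2
      ext
      · show ⁅r, s⁆ = r * s * r⁻¹ * s⁻¹
        rfl
      · show ⁅r, s⁆⁻¹ = r * s⁻¹ * r⁻¹ * s⁻¹⁻¹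
        have h1 := hc _ hmem s⁻¹ (R.inv_mem hs)
        have h2 : r * s⁻¹ * r⁻¹ * s⁻¹⁻¹ = s⁻¹ * ⁅r, s⁆⁻¹ * s := by
          rw [commutatorElement_def]; group
        have h3 : s⁻¹ * ⁅r, s⁆⁻¹ = ⁅r, s⁆⁻¹ * s⁻¹ := by
          calc s⁻¹ * ⁅r, s⁆⁻¹ = ⁅r, s⁆⁻¹ * (⁅r, s⁆ * s⁻¹) * ⁅r, s⁆⁻¹ := by group
            _ = ⁅r, s⁆⁻¹ * (s⁻¹ * ⁅r, s⁆) * ⁅r, s⁆⁻¹ := by rw [h1]
            _ = ⁅r, s⁆⁻¹ * s⁻¹ := by group
        rw [h2, h3]; group
    | one =>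
      have h0 : ((1 : G), (1 : G)⁻¹) ∈ P := by
        have : ((1 : G), (1 : G)⁻¹) = 1 := by ext <;> simp
        rw [this]; exact P.one_mem
      refine ⟨h0, ?_⟩
      have : (⟨((1 : G), (1 : G)⁻¹), h0⟩ : P) = 1 := by ext <;> simp
      rw [this, map_one]; exact C.one_mem
    | mul x y hx hy hx2 hy2 =>
      rw [← Subgroup.commutator_def] at hx hy
      obtain ⟨h1, h2⟩ := hx2
      obtain ⟨h3, h4⟩ := hy2
      have hcomm : (x * y)⁻¹ = x⁻¹ * y⁻¹ := by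
        have := hc x hx y (hle hy)
        rw [← this]; group
      have h5 : (x * y, (x * y)⁻¹) ∈ P := by
        have := P.mul_mem h1 h3
        rw [hcomm]; exact this
      refine ⟨h5, ?_⟩
      have e1 : (⟨(x * y, (x * y)⁻¹), h5⟩ : P) = ⟨(x, x⁻¹), h1⟩ * ⟨(y, y⁻¹), h3⟩ := by
        ext
        · rfl
        · exact hcomm
      rw [e1, map_mul]
      exact C.mul_mem h2 h4
    | inv x hx hx2 =>
      obtain ⟨h1, h2⟩ := hx2
      have h5 : (x⁻¹, x⁻¹⁻¹) ∈ P := P.inv_mem h1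
      refine ⟨h5, ?_⟩
      have e1 : (⟨(x⁻¹, x⁻¹⁻¹), h5⟩ : P) = ⟨(x, x⁻¹), h1⟩⁻¹ := by ext <;> rfl
      rw [e1, map_inv]
      exact C.inv_mem h2
  intro z hzm
  obtain ⟨hzP, hzC⟩ := hz z hzm
  let T' : Set P := {w | w.1.1 ∈ T ∧ w.1.2 ∈ T}
  have hlift := lift_of_mem_sup (Abelianization.of : P →* Abelianization P)
    (fun e => diffHom (ρ e)) E T' (by
      intro e he b
      obtain ⟨p, rfl⟩ := QuotientGroup.mk_surjective b
      refine ⟨conjPair R e p * p⁻¹, ?_, ?_⟩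
      · obtain ⟨⟨u, v⟩, hu, hv, huv⟩ := p
        exact ⟨hT e he u hu, hT e he v hv⟩
      · simp only [map_mul, map_inv, ρ]
        rfl) _ hzC
  obtain ⟨w, hw, hw2⟩ := hlift
  have hw1 : w.1.1 ∈ T ^ E.card := by
    have h1 : ((MonoidHom.fst G G).comp P.subtype) '' (T' ^ E.card) ⊆ T ^ E.card := by
      rw [Set.image_pow]
      apply Set.pow_subset_pow_left
      rintro _ ⟨x, hx, rfl⟩
      exact hx.1
    exact h1 ⟨w, hw, rfl⟩
  have hw1' : w.1.2 ∈ T ^ E.card := by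
    have h1 : ((MonoidHom.snd G G).comp P.subtype) '' (T' ^ E.card) ⊆ T ^ E.card := by
      rw [Set.image_pow]
      apply Set.pow_subset_pow_left
      rintro _ ⟨x, hx, rfl⟩
      exact hx.2
    exact h1 ⟨w, hw, rfl⟩
  rw [Abelianization_of_eq_iff] at hw2
  have h3 := commutator_pair_le R hc _ hw2
  obtain ⟨-, h4⟩ := h3
  have h5 : (w.1.1)⁻¹ * z = (w.1.2)⁻¹ * z⁻¹ := h4
  refine ⟨_, hw1, _, hw1', ?_⟩
  have h6 : z = w.1.1 * ((w.1.2)⁻¹ * z⁻¹) := by rw [← h5]; group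
  calc z ^ 2 = z * z := pow_two z
    _ = w.1.1 * ((w.1.2)⁻¹ * z⁻¹) * z := by rw [← h6]
    _ = w.1.1 * (w.1.2)⁻¹ := by group

end Quadratic

end Pool.Agent.Lib.MP_c7b0ca_al
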