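import Pool.Agent.Lib.MP_c7b0ca_al.Main
import Pool.Agent.Lib.MP_c7b0ca_al.Defs

open scoped Pointwise commutatorElement

namespace Pool.Agent.Lib.MP_c7b0ca_al

universe u

variable {k : ℕ}

lemma one_mem_wordValues (v : FreeGroup (Fin k)) (G : Type*) [Group G] :
    (1 : G) ∈ wordValues v G := by
  refine ⟨fun _ => 1, ?_⟩
  have h : FreeGroup.lift (fun _ : Fin k => (1 : G)) = 1 := by
    ext; simp
  rw [h]; rfl

/-- Substituting `x_i = g` and `1` for the other letters gives `g ^ (exponent sum)`. -/
lemma lift_single (v : FreeGroup (Fin k)) (i : Fin k) {G : Type*} [Group G] (g : G) :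
    FreeGroup.lift (fun j => if j = i then g else 1) v = g ^ exponentSum i v := by
  have h : FreeGroup.lift (fun j => if j = i then g else 1) =
      (zpowersHom G g).comp
        (FreeGroup.lift (fun j : Fin k => if j = i then Multiplicative.ofAdd (1 : ℤ) else 1)) := by
    ext j
    by_cases hj : j = i <;> simp [hj, zpowersHom_apply]
  rw [h]
  simp [exponentSum, zpowersHom_apply]

lemma powSet_subset_wordValues (v : FreeGroup (Fin k)) (i : Fin k) (G : Type*) [Group G] :
    powSet G (exponentSum i v).natAbs ⊆ wordValues v G := by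
  rintro _ ⟨g, rfl⟩
  rcases Int.natAbs_eq (exponentSum i v) with h | h
  · refine ⟨fun j => if j = i then g else 1, ?_⟩
    rw [lift_single]
    conv_lhs => rw [h]
    exact zpow_natCast g _
  · refine ⟨fun j => if j = i then g⁻¹ else 1, ?_⟩
    rw [lift_single]
    conv_lhs => rw [h]
    rw [zpow_neg, inv_zpow, inv_inv]
    exact zpow_natCast g _

lemma image_wordValues (v : FreeGroup (Fin k)) {G G' : Type*} [Group G] [Group G'] (f : G →* G')
    (hf : Function.Surjective f) : f '' wordValues v G = wordValues v G' := by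
  ext y
  constructor
  · rintro ⟨_, ⟨g, rfl⟩, rfl⟩
    refine ⟨fun i => f (g i), ?_⟩
    have h : FreeGroup.lift (fun i => f (g i)) = f.comp (FreeGroup.lift g) := by
      ext; simp
    rw [h]; rfl
  · rintro ⟨g', rfl⟩
    choose g hg using fun i => hf (g' i)
    refine ⟨FreeGroup.lift g v, ⟨g, rfl⟩, ?_⟩
    have h : FreeGroup.lift g' = f.comp (FreeGroup.lift g) := by
      ext i; simp [hg]
    rw [h]; rfl

/-- In a finite group, elements of the subgroup generated by a set containing `1` are products
of boundedly many elements of the set. -/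
lemma exists_pow_of_finite {G : Type*} [Group G] [Finite G] (S : Set G) (h1 : (1 : G) ∈ S) :
    ∃ m : ℕ, ∀ x ∈ Subgroup.closure S, x ∈ S ^ m := by
  classical
  cases nonempty_fintype G
  have key : ∀ x ∈ Subgroup.closure S, ∃ m : ℕ, x ∈ S ^ m := by
    intro x hx
    rw [← Subgroup.mem_toSubmonoid, Subgroup.closure_toSubmonoid_of_finite] at hx
    induction hx using Submonoid.closure_induction with
    | mem x hx => exact ⟨1, by simpa using hx⟩
    | one => exact ⟨0, by simp⟩
    | mul x y _ _ hx hy =>
      obtain ⟨a, ha⟩ := hx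
      obtain ⟨b, hb⟩ := hy
      exact ⟨a + b, by rw [pow_add]; exact Set.mul_mem_mul ha hb⟩
  choose! f hf using key
  refine ⟨Finset.univ.sup f, fun x hx => ?_⟩
  exact Set.pow_subset_pow_right h1 (Finset.le_sup (Finset.mem_univ x)) (hf x hx)


/-- The main theorem, in terms of set powers. -/
theorem main_pow (v : FreeGroup (Fin k)) (i : Fin k) (hi : Odd (exponentSum i v))
    (G : Type u) [Group G] [Group.FG G] (H : Subgroup G) [H.Normal] [H.FiniteIndex]
    (hH : Group.IsSolvable H) : ∃ N : ℕ, ∀ x ∈ verbalSubgroup v G, x ∈ wordValues v G ^ N := by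
  classical
  set n := (exponentSum i v).natAbs with hn
  have hno : Odd n := Int.natAbs_odd.2 hi
  obtain ⟨l, hl⟩ := hH.solvable
  have hdl : dser H l = ⊥ := by
    have h1 : (dser (⊤ : Subgroup H) l).map H.subtype = dser H l := by
      rw [map_dser, ← MonoidHom.range_eq_map, H.range_subtype]
    rw [← h1, dser_top, hl, Subgroup.map_bot]
  obtain ⟨N, hN⟩ := FW_main n hno l G H hdl
  have hfi := closure_powSet_finiteIndex n hno.pos G H hdl
  set W := Subgroup.closure (powSet G n) with hW
  have hsub := powSet_subset_wordValues v i G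
  have hs := QuotientGroup.mk'_surjective W
  obtain ⟨m, hm⟩ := exists_pow_of_finite (wordValues v (G ⧸ W)) (one_mem_wordValues v (G ⧸ W))
  refine ⟨m + N, fun x hx => ?_⟩
  have h1 : QuotientGroup.mk' W x ∈ Subgroup.closure (wordValues v (G ⧸ W)) := by
    rw [← image_wordValues v (QuotientGroup.mk' W) hs, ← MonoidHom.map_closure]
    exact Subgroup.mem_map_of_mem _ hx
  have h2 := hm _ h1
  rw [← image_wordValues v (QuotientGroup.mk' W) hs, ← Set.image_pow] at h2
  obtain ⟨y, hy, hyx⟩ := h2
  have h3 : y⁻¹ * x ∈ W := QuotientGroup.eq.1 hyx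
  have h4 : y⁻¹ * x ∈ wordValues v G ^ N := Set.pow_subset_pow_left hsub (hN _ h3)
  have h5 := Set.mul_mem_mul hy h4
  rw [← pow_add] at h5
  simpa using h5

/-- The main theorem. -/
theorem main (v : FreeGroup (Fin k)) (hv : ∃ i, Odd (exponentSum i v))
    (G : Type u) [Group G] [Group.FG G] (hG : ∃ H : Subgroup G, H.FiniteIndex ∧ Group.IsSolvable H) :
    InClassK v G := by
  obtain ⟨i, hi⟩ := hv
  obtain ⟨H, hfi, hH⟩ := hG
  have hsol : Group.IsSolvable H.normalCore := by
    have hle : H.normalCore ≤ H := H.normalCore_le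
    exact Group.isSolvable_of_isSolvable_injective (f := Subgroup.inclusion hle)
      (Subgroup.inclusion_injective hle)
  obtain ⟨N, hN⟩ := main_pow v i hi G H.normalCore hsol
  refine ⟨N + 1, Nat.succ_pos N, fun x hx => ?_⟩
  have h1 : x ∈ wordValues v G ^ (N + 1) :=
    Set.pow_subset_pow_right (one_mem_wordValues v G) (Nat.le_succ N) (hN x hx)
  obtain ⟨f, hf⟩ := Set.mem_pow.1 h1
  exact ⟨fun j => (f j : G), fun j => (f j).2, hf⟩

end Pool.Agent.Lib.MP_c7b0ca_al
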